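import Pool.Agent.Helper81.EMC.Goals

set_option autoImplicit false

namespace Helper45.EMC

open Finset Helper81.EMC

lemma prod_erase_succAbove {m : ℕ} (j : Fin (m + 1)) (f : Fin (m + 1) → ℝ) :
    ∏ i ∈ univ.erase j, f i = ∏ i : Fin m, f (j.succAbove i) := by
  have h : (univ : Finset (Fin (m + 1))).erase j = univ.map (Fin.succAboveEmb j) := by
    rw [Fin.univ_succAbove m j, Finset.erase_cons]
  rw [h, Finset.prod_map]
  rfl

theorem step : stmtStep := by
  intro hA hB n a hn ha ha1 hS y u j hy hyj hju hj0 hsum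
  obtain ⟨m, rfl⟩ : ∃ m, n = m + 1 := ⟨n - 1, by omega⟩
  have hm : 3 ≤ m := by omega
  have hmR : (3 : ℝ) ≤ (m : ℝ) := by exact_mod_cast hm
  push_cast at ha1
  set r : ℝ := (1 - a) ^ (m + 1 + 1) with hr
  have ha2 : a < 1 := by nlinarith
  have h1a : 0 < 1 - a := by linarith
  have hrpos : 0 < r := pow_pos h1a _
  have hr1 : r < 1 := pow_lt_one₀ h1a.le (by linarith) (by omega)
  -- normalised quantities
  set β : Fin m → ℝ := fun i => y (j.succAbove i) / a with hβ
  set b : ℝ := y j / a with hb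
  set B : ℝ := ∑ i, β i with hBdef
  set U : ℝ := u / a with hU
  have hane : a ≠ 0 := ha.ne'
  have hβ0 : ∀ i, 0 ≤ β i := fun i => div_nonneg (hy _) ha.le
  have hβb : ∀ i, β i ≤ b := fun i => div_le_div_of_nonneg_right (hyj _) ha.le
  have hb0 : 0 < b := div_pos hj0 ha
  have hbU : b ≤ U := div_le_div_of_nonneg_right hju ha.le
  have hB0 : 0 ≤ B := Finset.sum_nonneg fun i _ => hβ0 i
  have hBb : B ≤ (m : ℝ) * b := by
    have := Finset.sum_le_card_nsmul (univ : Finset (Fin m)) β b (fun i _ => hβb i)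
    simpa using this
  have hsumA : U + b + B = 1 / a := by
    rw [Fin.sum_univ_succAbove y j] at hsum
    have h1 : B = (∑ i, y (j.succAbove i)) / a := by
      rw [hBdef, Finset.sum_div]
    rw [h1, hU, hb, ← add_div, ← add_div]
    congr 1
    linarith
  have hU1 : 1 < U := by
    have h1 : (m : ℝ) + 1 + 1 < 1 / a := by
      rw [lt_div_iff₀ ha]; linarith
    nlinarith
  have hua : 0 < u - a := by
    have h2 : 1 * a < U * a := mul_lt_mul_of_pos_right hU1 ha
    have h3 : U * a = u := div_mul_cancel₀ _ hane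
    linarith
  have hU1' : 0 < U - 1 := by linarith
  have huU : u = U * a := (div_mul_cancel₀ _ hane).symm
  have hyβ : ∀ i, y (j.succAbove i) = β i * a := fun i => (div_mul_cancel₀ _ hane).symm
  have hyb : y j = b * a := (div_mul_cancel₀ _ hane).symm
  set z : Fin m → ℝ := fun i => (1 - β i) / (U - 1) with hz
  have huaU : u - a = (U - 1) * a := by rw [huU]; ring
  have hzfac : ∀ i, 1 - (y (j.succAbove i) - a) / (u - a) = 1 + z i := by
    intro i
    rw [huaU, hyβ, hz]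
    field_simp
    ring
  have hz1 : ∀ i, -1 ≤ z i := by
    intro i
    rw [hz]
    simp only
    rw [le_div_iff₀ hU1']
    have := (hβb i).trans hbU
    linarith
  set t : ℝ := (U - b) / (U - 1) with ht
  have ht0 : 0 ≤ t := div_nonneg (by linarith) hU1'.le
  have htfac : 1 - (y j - a) / (u - a) = t := by
    rw [huaU, hyb, ht]
    field_simp
    ring
  have hgsum : ∑ i, z i = ((((m + 1 : ℕ) : ℝ)) - 1 - B) / (U - 1) := by
    rw [hz, ← Finset.sum_div, Finset.sum_sub_distrib]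
    congr 1
    push_cast
    simp [hBdef]
  -- the three pieces
  have hprod : ∏ i, (1 - (y i - a) / (u - a)) = t * ∏ i, (1 + z i) := by
    rw [Fin.prod_univ_succAbove _ j, htfac]
    congr 1
    exact Finset.prod_congr rfl fun i _ => hzfac i
  have hI2 : (∫ σ in (0 : ℝ)..(1 / (u - a)), σ * ∏ i ∈ univ.erase j, (1 - σ * (y i - a))) =
      (1 / (u - a) ^ 2) * ∫ θ in (0 : ℝ)..1, θ * ∏ i, (1 + θ * z i) := by
    have hc : (1 / (u - a)) ≠ 0 := by positivity
    have h1 := intervalIntegral.integral_comp_mul_left (a := 0) (b := 1)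
      (fun σ : ℝ => σ * ∏ i ∈ univ.erase j, (1 - σ * (y i - a))) hc
    simp only [mul_zero, mul_one, smul_eq_mul] at h1
    have h2 : ∀ θ : ℝ, (1 / (u - a)) * θ * ∏ i ∈ univ.erase j, (1 - (1 / (u - a)) * θ * (y i - a)) =
        (1 / (u - a)) * (θ * ∏ i, (1 + θ * z i)) := by
      intro θ
      rw [prod_erase_succAbove j (fun i => 1 - (1 / (u - a)) * θ * (y i - a)), mul_assoc]
      congr 2
      refine Finset.prod_congr rfl fun i _ => ?_
      have := hzfac i
      have h3 : z i = - ((y (j.succAbove i) - a) / (u - a)) := by linarith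
      rw [h3]; ring
    simp_rw [h2] at h1
    rw [intervalIntegral.integral_const_mul] at h1
    have h4 : (∫ σ in (0 : ℝ)..(1 / (u - a)), σ * ∏ i ∈ univ.erase j, (1 - σ * (y i - a))) =
        (1 / (u - a)) * ((1 / (u - a))⁻¹ *
          ∫ σ in (0 : ℝ)..(1 / (u - a)), σ * ∏ i ∈ univ.erase j, (1 - σ * (y i - a))) := by
      rw [← mul_assoc, mul_inv_cancel₀ hc, one_mul]
    rw [h4, ← h1]
    field_simp
  have hI1 : (∫ σ in (-1 / a)..0, (-σ) * ∏ i ∈ univ.erase j, (1 - σ * (y i - a))) =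
      (1 / a ^ 2) * ∫ s in (0 : ℝ)..1, (1 - s) * ∏ i, (s + (1 - s) * β i) := by
    have hc : (1 / a) ≠ 0 := by positivity
    have h1 := intervalIntegral.integral_comp_mul_add (a := 0) (b := 1)
      (fun σ : ℝ => (-σ) * ∏ i ∈ univ.erase j, (1 - σ * (y i - a))) hc (-1 / a)
    have e1 : 1 / a * 0 + -1 / a = -1 / a := by ring
    have e2 : 1 / a * 1 + -1 / a = 0 := by ring
    rw [e1, e2, smul_eq_mul] at h1
    have h2 : ∀ s : ℝ, (-((1 / a) * s + -1 / a)) *
        ∏ i ∈ univ.erase j, (1 - ((1 / a) * s + -1 / a) * (y i - a)) =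
        (1 / a) * ((1 - s) * ∏ i, (s + (1 - s) * β i)) := by
      intro s
      rw [prod_erase_succAbove j (fun i => 1 - ((1 / a) * s + -1 / a) * (y i - a)), ← mul_assoc]
      have e3 : (-((1 / a) * s + -1 / a)) = 1 / a * (1 - s) := by ring
      rw [e3]
      congr 1
      refine Finset.prod_congr rfl fun i _ => ?_
      rw [hyβ]
      field_simp
      ring
    simp_rw [h2] at h1
    rw [intervalIntegral.integral_const_mul] at h1
    have h4 : (∫ σ in (-1 / a)..0, (-σ) * ∏ i ∈ univ.erase j, (1 - σ * (y i - a))) =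
        (1 / a) * ((1 / a)⁻¹ *
          ∫ σ in (-1 / a)..0, (-σ) * ∏ i ∈ univ.erase j, (1 - σ * (y i - a))) := by
      rw [← mul_assoc, mul_inv_cancel₀ hc, one_mul]
    rw [h4, ← h1]
    field_simp
  set J1 : ℝ := ∫ s in (0 : ℝ)..1, (1 - s) * ∏ i, (s + (1 - s) * β i) with hJ1
  set J2 : ℝ := ∫ θ in (0 : ℝ)..1, θ * ∏ i, (1 + θ * z i) with hJ2
  rw [hprod, hI1, hI2]
  have hAJ := hA m β b B hm hβ0 hβb rfl
  have hBJ := hB m z t hz1 ht0
  rw [← hJ1] at hAJ
  rw [← hJ2, hgsum] at hBJ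
  have hSc := hS U b B hb0 hbU hB0 hsumA (by push_cast; linarith)
  rw [← ht] at hSc
  -- the constant
  set K : ℝ := (1 / (1 - a)) ^ (m + 1 + 1) - 1 with hK
  have hKr : K = (1 - r) / r := by
    rw [hK, hr, one_div, inv_pow, sub_div, div_self hrpos.ne', one_div]
  have hKpos : 0 < K := by
    rw [hKr]; exact div_pos (by linarith) hrpos
  set R1 : ℝ := 1 / (((m : ℝ) + 2) * (m + 1)) *
        (1 + 2 * B / (m : ℝ) + 3 * B * max (B - b) 0 / ((m : ℝ) * ((m : ℝ) - 1))) with hR1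
  have hR1pos : 0 < R1 := by
    rw [hR1]
    have hm1 : (0 : ℝ) < (m : ℝ) - 1 := by linarith
    have hm0 : (0 : ℝ) < (m : ℝ) := by linarith
    have hmax : 0 ≤ max (B - b) 0 := le_max_right _ _
    positivity
  have hRHS : ((1 / (1 - a)) ^ (m + 1 + 1) - 1) * (U - 1) ^ 2 /
      (((((m + 1 : ℕ) : ℝ)) + 1) * ((m + 1 : ℕ) : ℝ)) *
        (1 + 2 * B / ((((m + 1 : ℕ) : ℝ)) - 1) + 3 * B * max (B - b) 0 /
          (((((m + 1 : ℕ) : ℝ)) - 1) * ((((m + 1 : ℕ) : ℝ)) - 2))) = K * (U - 1) ^ 2 * R1 := by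
    rw [hR1, hK]
    push_cast
    have e1 : (m : ℝ) + 1 - 1 = m := by ring
    have e2 : (m : ℝ) + 1 - 2 = m - 1 := by ring
    have e3 : (m : ℝ) + 1 + 1 = m + 2 := by ring
    rw [e1, e2, e3]
    ring
  rw [hRHS] at hSc
  have hKU : 0 < K * (U - 1) ^ 2 := by positivity
  have key : t * ∏ i, (1 + z i) < K * (U - 1) ^ 2 * J1 + J2 := by
    have h1 : K * (U - 1) ^ 2 * R1 ≤ K * (U - 1) ^ 2 * J1 := mul_le_mul_of_nonneg_left hAJ hKU.le
    have h2 : 0 < K * (U - 1) ^ 2 * R1 := mul_pos hKU hR1pos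
    have h3 := max_lt h2 hSc
    linarith
  -- unnormalise
  have hpos : 0 < r / (u - a) ^ 2 := by positivity
  have hfin := mul_lt_mul_of_pos_left key hpos
  have e1 : r / (u - a) ^ 2 * (t * ∏ i, (1 + z i)) = r * (t * (∏ i, (1 + z i)) / (u - a) ^ 2) := by
    ring
  have e2 : r / (u - a) ^ 2 * (K * (U - 1) ^ 2 * J1 + J2) =
      (1 - r) * (1 / a ^ 2 * J1) + r * (1 / (u - a) ^ 2 * J2) := by
    rw [hKr, huaU]
    field_simp
  rw [e1, e2] at hfin
  exact hfin

end Helper45.EMC
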